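import Pool.Agent.U243.ACFBound

/-!
# Existence over algebraically closed fields

A first-order condition which has a solution over `ℂ` has one over the algebraic closure of `ℚ` and over all algebraically closed
fields of large characteristic, and conversely infinitely many characteristics are enough.
-/

set_option autoImplicit false

namespace Pool.Agent.U243.ACF

open FirstOrder FirstOrder.Language FirstOrder.Ring FirstOrder.Field

theorem FO1.and {r : ℕ} {V W : ∀ (K : Type) [Field K], (Fin r → K) → Prop} (hV : FO1 V) (hW : FO1 W) :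
    FO1 (fun K _ a => V K a ∧ W K a) := by
  obtain ⟨φ, hφ⟩ := hV
  obtain ⟨ψ, hψ⟩ := hW
  refine ⟨φ ⊓ ψ, fun K _ _ hK a => ?_⟩
  rw [Formula.realize_inf, ← hφ K hK a, ← hψ K hK a]

theorem FO1.neg {r : ℕ} {V : ∀ (K : Type) [Field K], (Fin r → K) → Prop} (hV : FO1 V) :
    FO1 (fun K _ a => ¬ V K a) := by
  obtain ⟨φ, hφ⟩ := hV
  refine ⟨Formula.not φ, fun K _ _ hK a => ?_⟩
  rw [Formula.realize_not, ← hφ K hK a]

theorem FO1.bot {r : ℕ} : FO1 (fun (K : Type) (_ : Field K) (_ : Fin r → K) => False) :=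
  ⟨⊥, fun K _ _ _ a => by simp⟩

theorem ex_tfae {r : ℕ} {R : ∀ (K : Type) [Field K], (Fin r → K) → Prop} (hR : FO1 R) :
    List.TFAE [
      ∃ a : Fin r → ℂ, R ℂ a,
      ∃ a : Fin r → AlgebraicClosure ℚ, R (AlgebraicClosure ℚ) a,
      ∃ B, ∀ p, B < p → p.Prime → ∀ (K : Type) [Field K], IsAlgClosed K → CharP K p → ∃ a : Fin r → K, R K a,
      ∀ B, ∃ p, B < p ∧ p.Prime ∧ ∃ (K : Type) (_ : Field K), IsAlgClosed K ∧ CharP K p ∧
        ∃ a : Fin r → K, R K a] := by
  have e := tfae (P := fun _ K _ a => R K a) (Q := fun _ _ _ _ => False) (fun _ => hR) (fun _ => FO1.bot)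
    (fun _ _ _ _ _ _ _ h => h) (fun _ _ _ _ _ _ _ h => h)
  tfae_have 1 → 2 := by
    rintro ⟨a, ha⟩
    by_contra h
    push Not at h
    have e30 := e.out 3 0
    obtain ⟨_, hm⟩ := e30.1 ⟨0, fun b hb => h b hb⟩ a fun _ => ha
    exact hm
  tfae_have 2 → 3 := by
    rintro ⟨a, ha⟩
    by_contra h
    push Not at h
    have h1 : ∃ N : ℕ, ∀ B, ∃ p, B < p ∧ p.Prime ∧ ∃ (K : Type) (_ : Field K), IsAlgClosed K ∧ CharP K p ∧
        ∀ a : Fin r → K, R K a → False := by
      refine ⟨0, fun B => ?_⟩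
      obtain ⟨p, h2, h3, K, _, hK, hc, h4⟩ := h B
      exact ⟨p, h2, h3, K, _, hK, hc, h4⟩
    have e43 := e.out 4 3
    obtain ⟨_, h2⟩ := e43.1 h1
    exact h2 a ha
  tfae_have 3 → 4 := by
    rintro ⟨B, h⟩ C
    obtain ⟨p, hp1, hp2⟩ := Nat.exists_infinite_primes (max B C + 1)
    have : Fact p.Prime := ⟨hp2⟩
    have h1 := le_max_left B C
    have h2 := le_max_right B C
    exact ⟨p, by omega, hp2, AlgebraicClosure (ZMod p), inferInstance, inferInstance, inferInstance,
      h p (by omega) hp2 _ inferInstance inferInstance⟩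
  tfae_have 4 → 1 := by
    intro h
    by_contra h0
    push Not at h0
    have e12 := e.out 1 2
    obtain ⟨N, hN⟩ := e12.1 ⟨0, fun b hb => h0 b hb⟩
    obtain ⟨p, hp, hpp, K, _, hK, hc, a, ha⟩ := h N
    exact hN K hK (Or.inr ⟨p, hp, hpp, hc⟩) a ha
  tfae_finish

end Pool.Agent.U243.ACF
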